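import Pool.Agent.Helper61.PV.St

/-! Module Err of project PV: size of the errors. -/

set_option autoImplicit false

namespace Pool.Agent.Helper67.PV

open Pool.Agent.Helper61.PV Finset

theorem hErr : StErr := by
  intro H d m B δ hH hd hm hδ h1 h2
  set Λ := Real.log H + d with hΛ
  have hHr : (3 : ℝ) ≤ H := by exact_mod_cast hH
  have hmr : (9 : ℝ) ≤ m := by exact_mod_cast hm
  have hdr : (1 : ℝ) ≤ d := by exact_mod_cast hd
  have hlH : 0 ≤ Real.log H := Real.log_nonneg (by linarith)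
  have hΛ1 : 1 ≤ Λ := by linarith
  have hlm : 1 ≤ Real.log m := by
    rw [Real.le_log_iff_exp_le (by linarith)]
    have := Real.exp_one_lt_d9
    linarith
  have hx : ((16 * H * m ^ d : ℕ) : ℝ) = 16 * H * (m : ℝ) ^ d := by push_cast; ring
  have hmd : (0 : ℝ) < (m : ℝ) ^ d := by positivity
  have hlog : Λ ≤ Real.log ((16 * H * m ^ d : ℕ) : ℝ) := by
    rw [hx, Real.log_mul (by positivity) hmd.ne', Real.log_mul (by norm_num) (by positivity),
      Real.log_pow]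
    have h3 : 0 ≤ Real.log 16 := Real.log_nonneg (by norm_num)
    have h4 : (d : ℝ) * 1 ≤ d * Real.log m := by gcongr
    linarith
  have hmain : 2 * ((16 * H * m ^ d : ℕ) : ℝ) / Real.log ((16 * H * m ^ d : ℕ) : ℝ) ^ 8 ≤
      δ * B * (m : ℝ) ^ d / Λ ^ 4 := by
    have h5 : 2 * ((16 * H * m ^ d : ℕ) : ℝ) / Real.log ((16 * H * m ^ d : ℕ) : ℝ) ^ 8 ≤
        2 * ((16 * H * m ^ d : ℕ) : ℝ) / Λ ^ 8 := by gcongr
    refine h5.trans ?_
    rw [hx, div_le_div_iff₀ (by positivity) (by positivity)]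
    have h6 : 2 * (16 * (H : ℝ) * (m : ℝ) ^ d) ≤ (B * (δ * Λ ^ 4)) * (m : ℝ) ^ d := by
      have := mul_le_mul_of_nonneg_right h1 hmd.le
      linarith
    calc 2 * (16 * (H : ℝ) * (m : ℝ) ^ d) * Λ ^ 4 ≤ ((B * (δ * Λ ^ 4)) * (m : ℝ) ^ d) * Λ ^ 4 := by
          gcongr
      _ = δ * B * (m : ℝ) ^ d * Λ ^ 8 := by ring
  have hΛ4 : 1 ≤ Λ ^ 4 := one_le_pow₀ hΛ1
  refine ⟨hlog, hmain.trans ?_, hmain.trans ?_⟩
  · push_cast
    rw [div_le_iff₀ (by positivity)]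
    have h7 : 0 ≤ δ * B * (m : ℝ) ^ d := by positivity
    nlinarith
  · obtain ⟨e, rfl⟩ : ∃ e, d = e + 1 := ⟨d - 1, by omega⟩
    rw [Nat.add_sub_cancel]
    push_cast
    rw [div_le_iff₀ (by positivity), pow_succ]
    have h8 : (m : ℝ) ≤ Λ ^ 4 := by
      refine h2.trans ?_
      exact pow_le_pow_right₀ hΛ1 (by norm_num)
    calc δ * B * ((m : ℝ) ^ e * m) = (δ * ((m : ℝ) ^ e * B)) * m := by ring
      _ ≤ (δ * ((m : ℝ) ^ e * B)) * Λ ^ 4 := by gcongr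

end Pool.Agent.Helper67.PV
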