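import Pool.Agent.Helper61.PV.St

/-! Module Lo1 of project PV: bounded `m`. -/

set_option autoImplicit false

namespace Pool.Agent.Helper67.PV

open Pool.Agent.Helper61.PV Finset

theorem ncard_and {α : Type} (s : Finset α) (P : α → Prop) [DecidablePred P] :
    Nat.card {c : α // c ∈ s ∧ P c} = #(s.filter P) := by
  apply Nat.subtype_card
  intro x
  rw [mem_filter]

theorem ev_upd {d : ℕ} (g : Fin (d + 1) → ℤ) (n m : ℤ) :
    ev (Function.update g 0 n) m = n + ev (Function.update g 0 0) m := by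
  unfold ev
  rw [Fin.sum_univ_succ, Fin.sum_univ_succ (fun i => Function.update g 0 0 i * m ^ (i : ℕ))]
  simp [Function.update_of_ne, Fin.succ_ne_zero]

theorem hLo1 (hFib : StFib) (hPri : StPri) : StLo1 := by
  intro M ε hε
  obtain ⟨N₀, hN⟩ := hPri (ε / (M + 1)) (by positivity)
  refine ⟨N₀, fun H hH d hd => ?_⟩
  have h1 : ∀ m : ℕ, (#((Bxx d H).filter (fun c => (ev c m).toNat.Prime)) : ℝ) ≤
      ε / (M + 1) * #(Bxx d H) := by
    intro m
    have hf := hFib d (fun i => if (i : ℕ) < d then -(H : ℤ) else 1)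
      (fun i => if (i : ℕ) < d then 2 * H + 1 else H) 0 (fun c => (ev c m).toNat.Prime)
    have h0d : ((0 : Fin (d + 1)) : ℕ) < d := by
      simp only [Fin.val_zero]
      omega
    simp only [h0d, if_true] at hf
    change ∑ g ∈ Bxx d H, _ = _ * Nat.card {g : Fin (d + 1) → ℤ // g ∈ Bxx d H ∧ _} at hf
    rw [ncard_and] at hf
    have hb : ∀ g ∈ Bxx d H, (Nat.card {n : ℤ // n ∈ Ico (-(H : ℤ)) (-(H : ℤ) + (2 * H + 1 : ℕ)) ∧
        (ev (Function.update g 0 n) m).toNat.Prime} : ℝ) ≤ ε / (M + 1) * ((2 * H + 1 : ℕ) : ℝ) := by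
      intro g _
      rw [ncard_and]
      refine le_trans ?_ (hN (2 * H + 1) (by omega) (-(H : ℤ) + ev (Function.update g 0 0) m))
      rw [Nat.cast_le]
      refine card_le_card_of_injOn (fun n => n + ev (Function.update g 0 0) m) ?_ ?_
      · intro n hn
        simp only [coe_filter, Set.mem_ofPred_eq, mem_Ico] at hn ⊢
        obtain ⟨⟨h2, h3⟩, h4⟩ := hn
        rw [ev_upd] at h4
        exact ⟨⟨by omega, by omega⟩, h4⟩
      · intro a _ b _ hab
        simpa using hab
    have hs : ((2 * H + 1 : ℕ) : ℝ) * #((Bxx d H).filter (fun c => (ev c m).toNat.Prime)) ≤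
        #(Bxx d H) * (ε / (M + 1) * ((2 * H + 1 : ℕ) : ℝ)) := by
      rw [← Nat.cast_mul, ← hf, Nat.cast_sum]
      refine (sum_le_sum hb).trans ?_
      rw [sum_const, nsmul_eq_mul]
    have hpos : (0 : ℝ) < ((2 * H + 1 : ℕ) : ℝ) := by positivity
    have hs' : ((2 * H + 1 : ℕ) : ℝ) * #((Bxx d H).filter (fun c => (ev c m).toNat.Prime)) ≤
        ((2 * H + 1 : ℕ) : ℝ) * (ε / (M + 1) * #(Bxx d H)) := by
      refine hs.trans (le_of_eq ?_)
      ring
    exact le_of_mul_le_mul_left hs' hpos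
  classical
  rw [ncard_and]
  have h2 : (Bxx d H).filter (fun c => ∃ m : ℕ, m ≤ M ∧ (ev c m).toNat.Prime) ⊆
      (range (M + 1)).biUnion (fun m => (Bxx d H).filter (fun c => (ev c m).toNat.Prime)) := by
    intro c hc
    rw [mem_filter] at hc
    obtain ⟨hc, m, hm, hp⟩ := hc
    rw [mem_biUnion]
    exact ⟨m, mem_range.2 (by omega), mem_filter.2 ⟨hc, hp⟩⟩
  have h3 := (card_le_card h2).trans card_biUnion_le
  have h4 : (#((Bxx d H).filter (fun c => ∃ m : ℕ, m ≤ M ∧ (ev c m).toNat.Prime)) : ℝ) ≤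
      ∑ m ∈ range (M + 1), (#((Bxx d H).filter (fun c => (ev c (m : ℕ)).toNat.Prime)) : ℝ) := by
    exact_mod_cast h3
  refine h4.trans ((sum_le_sum fun m _ => h1 m).trans (le_of_eq ?_))
  rw [sum_const, card_range, nsmul_eq_mul]
  push_cast
  field_simp

end Pool.Agent.Helper67.PV
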